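import Pool.Agent.Y271.RO.Stm

/-!
# Project RO (helper271), job RO-FID: the formula of Cauchy and Pompeiu for `χ f`
-/

set_option autoImplicit false

namespace Pool.Agent.Y51.RO.FID

open MeasureTheory Set Metric Filter Topology
open scoped InnerProductSpace ENNReal NNReal ComplexConjugate ContDiff
open Pool.Agent.Y283.NK (ct IsMul HasHyp)
open Pool.Agent.Y271.RO

/-- the area integral of `1 / |z - l|` -/
lemma area (hHT : S_HT) {r : ℝ} (hr : 0 < r) : ∃ K : ℝ, 0 ≤ K ∧ ∀ c l : ℂ,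
    ∫⁻ z in ball c r, ‖(z - l)⁻¹‖ₑ ≤ ENNReal.ofReal K := by
  obtain ⟨K, hK, h⟩ := hHT r hr
  refine ⟨K, hK, fun c l => ?_⟩
  obtain ⟨g, hg⟩ : ∃ g : ℂ → ℂ, g = (ball c r).indicator fun z => (z - l) / (‖z - l‖ : ℂ) := ⟨_, rfl⟩
  have hBd : Bd g c r 1 := by
    refine ⟨?_, zero_le_one, ?_, ?_⟩
    · rw [hg]
      refine Measurable.indicator ?_ measurableSet_ball
      exact (measurable_id.sub measurable_const).div
        (Complex.measurable_ofReal.comp (measurable_id.sub measurable_const).norm)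
    · intro z
      rw [hg]
      by_cases hz : z ∈ ball c r
      · rw [indicator_of_mem hz, norm_div, Complex.norm_real, norm_norm]
        exact div_self_le_one _
      · rw [indicator_of_notMem hz, norm_zero]
        exact zero_le_one
    · intro z hz
      rw [hg, indicator_of_notMem hz]
  obtain ⟨-, -, hint, hbd, -⟩ := h c 1 g hBd
  have e1 : ∀ z, g z * (z - l)⁻¹ = (((ball c r).indicator (fun z => ‖(z - l)⁻¹‖) z : ℝ) : ℂ) := by
    intro z
    rw [hg]
    by_cases hz : z ∈ ball c r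
    · rw [indicator_of_mem hz, indicator_of_mem hz, norm_inv]
      by_cases h0 : z - l = 0
      · rw [h0]; simp
      · have h1 : (‖z - l‖ : ℂ) ≠ 0 := by
          rw [Ne, Complex.ofReal_eq_zero, norm_eq_zero]
          exact h0
        push_cast
        field_simp
    · rw [indicator_of_notMem hz, indicator_of_notMem hz, zero_mul, Complex.ofReal_zero]
  have hI : Integrable (fun z => (ball c r).indicator (fun z => ‖(z - l)⁻¹‖) z) := by
    have h1 := hint l
    simp only [e1] at h1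
    have h2 := h1.re
    simpa using h2
  have h2 : ht g l = ((∫ z, (ball c r).indicator (fun z => ‖(z - l)⁻¹‖) z : ℝ) : ℂ) := by
    unfold ht
    simp only [e1]
    exact integral_ofReal
  have h3 : ∫ z, (ball c r).indicator (fun z => ‖(z - l)⁻¹‖) z ≤ K := by
    have h4 := hbd l
    rw [h2, Complex.norm_real, mul_one] at h4
    exact (le_abs_self _).trans h4
  have h5 : ∫⁻ z in ball c r, ‖(z - l)⁻¹‖ₑ =
      ∫⁻ z, ENNReal.ofReal ((ball c r).indicator (fun z => ‖(z - l)⁻¹‖) z) := by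
    rw [← lintegral_indicator measurableSet_ball]
    refine lintegral_congr fun z => ?_
    by_cases hz : z ∈ ball c r
    · rw [indicator_of_mem hz, indicator_of_mem hz, ofReal_norm]
    · rw [indicator_of_notMem hz, indicator_of_notMem hz, ENNReal.ofReal_zero]
  rw [h5, ← ofReal_integral_eq_lintegral_ofReal hI (Eventually.of_forall fun z =>
    indicator_nonneg (fun _ _ => norm_nonneg _) z)]
  exact ENNReal.ofReal_le_ofReal h3

lemma area' (hHT : S_HT) {r : ℝ} (hr : 0 < r) : ∃ K : ℝ, 0 ≤ K ∧ ∀ c l : ℂ,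
    ∫⁻ z in ball c r, ‖(l - z)⁻¹‖ₑ ≤ ENNReal.ofReal K := by
  obtain ⟨K, hK, h⟩ := area hHT hr
  refine ⟨K, hK, fun c l => ?_⟩
  refine le_trans (le_of_eq ?_) (h c l)
  refine lintegral_congr fun z => ?_
  have : (l - z)⁻¹ = -(z - l)⁻¹ := by rw [← inv_neg, neg_sub]
  rw [this, enorm_neg]

/-- multiplication by `1 / (ζ - w)` -/
lemma ae_int (hHT : S_HT) {X : Type} [MeasurableSpace X] (ν : Measure X) [SFinite ν] (P ζ : X → ℂ)
    (hP : Measurable P) (hζ : Measurable ζ) (hPi : Integrable P ν) :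
    ∀ᵐ w : ℂ, Integrable (fun x => P x * (ζ x - w)⁻¹) ν := by
  have hU : (⋃ n : ℕ, ball (0 : ℂ) n) = univ := iUnion_ball_nat 0
  rw [← Measure.restrict_univ (μ := (volume : Measure ℂ)), ← hU, ae_restrict_iUnion_iff]
  intro n
  rcases Nat.eq_zero_or_pos n with rfl | hn
  · simp
  have hn' : (0 : ℝ) < n := by exact_mod_cast hn
  obtain ⟨K, hK, hKb⟩ := area' hHT hn'
  have hmeas : Measurable (fun p : ℂ × X => ‖P p.2‖ₑ * ‖(ζ p.2 - p.1)⁻¹‖ₑ) := by fun_prop
  have hfin : ∫⁻ w in ball (0 : ℂ) n, ∫⁻ x, ‖P x‖ₑ * ‖(ζ x - w)⁻¹‖ₑ ∂ν ≠ ⊤ := by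
    rw [lintegral_lintegral_swap hmeas.aemeasurable]
    have h1 : ∀ x, ∫⁻ w in ball (0 : ℂ) n, ‖P x‖ₑ * ‖(ζ x - w)⁻¹‖ₑ ≤
        ‖P x‖ₑ * ENNReal.ofReal K := by
      intro x
      rw [lintegral_const_mul _ (by fun_prop)]
      gcongr
      exact hKb 0 (ζ x)
    refine ne_top_of_le_ne_top ?_ (lintegral_mono h1)
    rw [lintegral_mul_const _ (by fun_prop)]
    exact ENNReal.mul_ne_top hPi.2.ne ENNReal.ofReal_ne_top
  have hae := ae_lt_top (μ := volume.restrict (ball (0 : ℂ) n))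
    (f := fun w => ∫⁻ x, ‖P x‖ₑ * ‖(ζ x - w)⁻¹‖ₑ ∂ν) (Measurable.lintegral_prod_right' hmeas) hfin
  filter_upwards [hae] with w hw
  refine ⟨by fun_prop, ?_⟩
  rw [hasFiniteIntegral_iff_enorm]
  refine lt_of_le_of_lt (le_of_eq ?_) hw
  refine lintegral_congr fun x => ?_
  rw [enorm_mul]

/-- no atoms for almost all points -/
lemma ae_ne {S : Type} [MeasurableSpace S] (μ : Measure S) [SigmaFinite μ] {φ : S → ℂ}
    (hφ : Measurable φ) : ∀ᵐ w : ℂ, ∀ᵐ s ∂μ, φ s ≠ w := by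
  have hs : MeasurableSet {p : ℂ × S | φ p.2 = p.1} :=
    measurableSet_eq_fun (hφ.comp measurable_snd) measurable_fst
  have h0 : (volume.prod μ) {p : ℂ × S | φ p.2 = p.1} = 0 := by
    rw [Measure.prod_apply_symm hs]
    simp
  have h1 := Measure.measure_ae_null_of_prod_null h0
  filter_upwards [h1] with w hw
  rw [ae_iff]
  have e : {s | ¬ φ s ≠ w} = Prod.mk w ⁻¹' {p : ℂ × S | φ p.2 = p.1} := by
    ext s
    simp
  rw [e]
  exact hw

theorem main (hHT : S_HT) (_hCTG : S_CTG) (hPOM : S_POM) : S_FID := by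
  intro S _ μ _ φ hφ u v χ hχ hχc
  obtain ⟨hpom, -, -, -, hdbc, -, hts⟩ := hPOM
  -- the functions
  obtain ⟨h, hh⟩ : ∃ h : S → ℂ, h = fun s => conj (v s) * u s := ⟨_, rfl⟩
  have hhm : Measurable h := by
    rw [hh]
    exact (Complex.continuous_conj.measurable.comp (Lp.stronglyMeasurable v).measurable).mul
      (Lp.stronglyMeasurable u).measurable
  have hhi : Integrable h μ := by
    have h1 := L2.integrable_inner (𝕜 := ℂ) v u
    refine h1.congr (Eventually.of_forall fun s => ?_)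
    rw [hh]
    simp only [RCLike.inner_apply]
    rw [mul_comm]
  obtain ⟨D, hD⟩ : ∃ D : ℂ → ℂ, D = db χ := ⟨_, rfl⟩
  have hDc : Continuous D := by rw [hD]; exact hdbc χ hχ
  have hD0 : ∀ z, z ∉ tsupport χ → D z = 0 := by rw [hD]; exact hts χ
  obtain ⟨R, hR0, hR⟩ : ∃ R : ℝ, 0 < R ∧ tsupport χ ⊆ ball 0 R := by
    obtain ⟨R, hR⟩ := hχc.isBounded.subset_ball (0 : ℂ)
    exact ⟨max R 1, lt_max_of_lt_right one_pos, hR.trans (ball_subset_ball (le_max_left _ _))⟩
  have hDcs : HasCompactSupport D := by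
    refine HasCompactSupport.of_support_subset_isCompact hχc fun z hz => ?_
    by_contra hc
    exact hz (hD0 z hc)
  obtain ⟨M, hM⟩ := hDcs.exists_bound_of_continuous hDc
  have hM0 : 0 ≤ M := (norm_nonneg _).trans (hM 0)
  have hBd : Bd D 0 R M := ⟨hDc.measurable, hM0, hM, fun z hz => hD0 z fun h => hz (hR h)⟩
  obtain ⟨K0, -, hHTR⟩ := hHT R hR0
  obtain ⟨-, -, hintD, -, -⟩ := hHTR 0 M D hBd
  -- integrability of the product
  have hPm : Measurable (fun p : ℂ × S => h p.2 * (p.1 - φ p.2)⁻¹ * D p.1) := by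
    have := hDc.measurable
    fun_prop
  have hPi : Integrable (fun p : ℂ × S => h p.2 * (p.1 - φ p.2)⁻¹ * D p.1) (volume.prod μ) := by
    refine ⟨hPm.aestronglyMeasurable, ?_⟩
    rw [hasFiniteIntegral_iff_enorm]
    obtain ⟨K, hK, hKb⟩ := area hHT hR0
    have hPe : Measurable (fun p : ℂ × S => ‖h p.2 * (p.1 - φ p.2)⁻¹ * D p.1‖ₑ) := hPm.enorm
    rw [lintegral_prod_symm _ hPe.aemeasurable]
    have h1 : ∀ s, ∫⁻ z, ‖h s * (z - φ s)⁻¹ * D z‖ₑ ≤
        ‖h s‖ₑ * (ENNReal.ofReal M * ENNReal.ofReal K) := by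
      intro s
      have h2 : ∀ z, ‖h s * (z - φ s)⁻¹ * D z‖ₑ ≤
          (ball (0 : ℂ) R).indicator (fun z => ‖h s‖ₑ * (ENNReal.ofReal M * ‖(z - φ s)⁻¹‖ₑ)) z := by
        intro z
        by_cases hz : z ∈ ball (0 : ℂ) R
        · rw [indicator_of_mem hz, enorm_mul, enorm_mul, mul_assoc, mul_comm (‖(z - φ s)⁻¹‖ₑ)]
          gcongr
          rw [← ofReal_norm]
          exact ENNReal.ofReal_le_ofReal (hM z)
        · rw [indicator_of_notMem hz, hBd.supp z hz, mul_zero, enorm_zero]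
      refine (lintegral_mono h2).trans ?_
      rw [lintegral_indicator measurableSet_ball, lintegral_const_mul _ (by fun_prop),
        lintegral_const_mul _ (by fun_prop)]
      gcongr
      exact hKb 0 (φ s)
    refine lt_of_le_of_lt (lintegral_mono h1) ?_
    rw [lintegral_mul_const _ (by fun_prop)]
    exact ENNReal.mul_lt_top hhi.2 (ENNReal.mul_lt_top ENNReal.ofReal_lt_top
      ENNReal.ofReal_lt_top)
  -- almost all points
  filter_upwards [ae_int hHT μ h φ hhm hφ hhi,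
    ae_int hHT (volume.prod μ) (fun p : ℂ × S => h p.2 * (p.1 - φ p.2)⁻¹ * D p.1)
      (fun p => p.1) hPm measurable_fst hPi, ae_ne μ hφ] with w hw1 hw2 hw3
  have hff : ∀ z, ff φ u v z * D z * (z - w)⁻¹ = D z * (z - w)⁻¹ -
      ∫ s, h s * (z - φ s)⁻¹ * D z * (z - w)⁻¹ ∂μ := by
    intro z
    have e : ∫ s, h s * (z - φ s)⁻¹ * D z * (z - w)⁻¹ ∂μ =
        (∫ s, h s * (z - φ s)⁻¹ ∂μ) * (D z * (z - w)⁻¹) := by
      rw [← integral_mul_const]
      congr 1
      funext s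
      ring
    rw [e]
    unfold ff ct
    rw [hh]
    ring
  have hI2 : Integrable (fun z => ∫ s, h s * (z - φ s)⁻¹ * D z * (z - w)⁻¹ ∂μ) :=
    hw2.integral_prod_left
  refine ⟨?_, ?_, ?_⟩
  · rw [← hD]
    simp only [hff]
    exact (hintD w).sub hI2
  · rw [hh] at hw1
    exact hw1
  · rw [← hD]
    have e1 : ∫ z, ff φ u v z * D z * (z - w)⁻¹ = -(Real.pi * χ w) -
        ∫ z, ∫ s, h s * (z - φ s)⁻¹ * D z * (z - w)⁻¹ ∂μ := by
      simp only [hff]
      rw [integral_sub (hintD w) hI2]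
      congr 1
      have h1 := hpom χ hχ hχc w
      unfold ht at h1
      rw [← hD] at h1
      exact h1
    have e2 : ∫ z, ∫ s, h s * (z - φ s)⁻¹ * D z * (z - w)⁻¹ ∂μ =
        ∫ s, (∫ z, h s * (z - φ s)⁻¹ * D z * (z - w)⁻¹) ∂μ := integral_integral_swap hw2
    have e3 : ∀ᵐ s ∂μ, ∫ z, h s * (z - φ s)⁻¹ * D z * (z - w)⁻¹ =
        -(Real.pi * (χ (φ s) * (h s * (φ s - w)⁻¹))) + Real.pi * (χ w * (h s * (φ s - w)⁻¹)) := by
      filter_upwards [hw3] with s hs
      have hsw : φ s - w ≠ 0 := sub_ne_zero.2 hs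
      have e4 : ∀ᵐ z : ℂ, h s * (z - φ s)⁻¹ * D z * (z - w)⁻¹ =
          h s * (φ s - w)⁻¹ * (D z * (z - φ s)⁻¹ - D z * (z - w)⁻¹) := by
        have a1 : ∀ᵐ z : ℂ, z ≠ φ s := by
          rw [ae_iff]
          simp
        have a2 : ∀ᵐ z : ℂ, z ≠ w := by
          rw [ae_iff]
          simp
        filter_upwards [a1, a2] with z hz1 hz2
        have b1 : z - φ s ≠ 0 := sub_ne_zero.2 hz1
        have b2 : z - w ≠ 0 := sub_ne_zero.2 hz2
        field_simp
        ring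
      rw [integral_congr_ae e4, integral_const_mul, integral_sub (hintD _) (hintD _)]
      have h1 := hpom χ hχ hχc w
      have h2 := hpom χ hχ hχc (φ s)
      unfold ht at h1 h2
      rw [← hD] at h1 h2
      rw [h1, h2]
      ring
    have i1 : Integrable (fun s => χ (φ s) * (h s * (φ s - w)⁻¹)) μ := by
      obtain ⟨B, hB⟩ := hχc.exists_bound_of_continuous hχ.continuous
      refine hw1.bdd_mul (c := B) ?_ (Eventually.of_forall fun s => hB (φ s))
      exact (hχ.continuous.measurable.comp hφ).aestronglyMeasurable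
    have e7 : ∫ s, (-(Real.pi * (χ (φ s) * (h s * (φ s - w)⁻¹))) +
        Real.pi * (χ w * (h s * (φ s - w)⁻¹)) : ℂ) ∂μ =
        -(Real.pi * ∫ s, χ (φ s) * (h s * (φ s - w)⁻¹) ∂μ) +
          Real.pi * (χ w * ∫ s, h s * (φ s - w)⁻¹ ∂μ) := by
      have j1 : Integrable (fun s => (-(Real.pi * (χ (φ s) * (h s * (φ s - w)⁻¹))) : ℂ)) μ :=
        (i1.const_mul _).neg
      have j2 : Integrable (fun s => (Real.pi * (χ w * (h s * (φ s - w)⁻¹)) : ℂ)) μ :=
        (hw1.const_mul _).const_mul _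
      rw [integral_add j1 j2, integral_neg, integral_const_mul, integral_const_mul,
        integral_const_mul]
    rw [e1, e2, integral_congr_ae e3, e7]
    have e5 : ff φ u v w = 1 + ∫ s, h s * (φ s - w)⁻¹ ∂μ := by
      unfold ff ct
      rw [sub_eq_add_neg, ← integral_neg]
      congr 2
      funext s
      have : (w - φ s)⁻¹ = -(φ s - w)⁻¹ := by rw [← inv_neg, neg_sub]
      rw [this, hh]
      ring
    have e6 : ∫ s, χ (φ s) * (conj (v s) * u s * (φ s - w)⁻¹) ∂μ =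
        ∫ s, χ (φ s) * (h s * (φ s - w)⁻¹) ∂μ := by rw [hh]
    rw [e5, e6]
    have hpi : (Real.pi : ℂ) ≠ 0 := by exact_mod_cast Real.pi_ne_zero
    field_simp
    ring

end Pool.Agent.Y51.RO.FID
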