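import Pool.Agent.Y271.RO.Stm

/-!
# Project RO (helper271), job RO-TST: test functions `ψ / G`
-/

set_option autoImplicit false

namespace Pool.Agent.Y51.RO.TST

open MeasureTheory Set Metric Filter Topology
open scoped InnerProductSpace ENNReal NNReal ComplexConjugate ContDiff
open Pool.Agent.Y283.NK (ct IsMul HasHyp)
open Pool.Agent.Y271.RO

/-- a radius and a distance -/
lemma radius (l a : ℂ) {r : ℝ} (hr : 0 < r) : ∃ ρ : ℝ, 0 < ρ ∧ ρ ≤ r ∧
    ∀ ψ : ℂ → ℂ, tsupport ψ ⊆ ball a ρ \ {a} → ∃ t : ℝ, 0 < t ∧ ∀ z ∈ tsupport ψ, 3 * t ≤ ‖z - l‖ := by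
  by_cases hla : l = a
  · refine ⟨r, hr, le_rfl, fun ψ hψ => ?_⟩
    have h1 : (tsupport ψ)ᶜ ∈ 𝓝 l := by
      refine (isClosed_tsupport ψ).isOpen_compl.mem_nhds ?_
      intro h
      exact (hψ h).2 hla
    obtain ⟨ε, hε, h2⟩ := Metric.mem_nhds_iff.1 h1
    refine ⟨ε / 3, by positivity, fun z hz => ?_⟩
    by_contra hc
    push Not at hc
    have h3 : z ∈ ball l ε := by
      rw [mem_ball, dist_eq_norm]
      linarith
    exact h2 h3 hz
  · have hd : 0 < ‖l - a‖ := norm_pos_iff.2 (sub_ne_zero.2 hla)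
    refine ⟨min r (‖l - a‖ / 2), lt_min hr (by positivity), min_le_left _ _, fun ψ hψ => ?_⟩
    refine ⟨‖l - a‖ / 6, by positivity, fun z hz => ?_⟩
    have h1 := (hψ hz).1
    rw [mem_ball, dist_eq_norm] at h1
    have h2 : ‖z - a‖ < ‖l - a‖ / 2 := h1.trans_le (min_le_right _ _)
    have h3 : ‖l - a‖ ≤ ‖z - l‖ + ‖z - a‖ := by
      have e : l - a = (z - a) - (z - l) := by ring
      rw [e]
      refine (norm_sub_le _ _).trans ?_
      linarith
    linarith

theorem main (hTEST : S_TEST) (hPOM : S_POM) : S_TST := by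
  obtain ⟨-, hprod, hhol, -, -, -, hts⟩ := hPOM
  intro S _ μ _ φ hφ hb u a r q hr hu hstar
  obtain ⟨l, hl⟩ := hTEST S μ φ hφ hb u hu
  obtain ⟨ρ, hρ, hρr, hrad⟩ := radius l a hr
  refine ⟨ρ, hρ, hρr, fun ψ hψ hsupp => ?_⟩
  obtain ⟨t, ht, hdist⟩ := hrad ψ hsupp
  obtain ⟨x, hx0, hne, hdiff⟩ := hl t ht
  obtain ⟨G, hG⟩ : ∃ G : ℂ → ℂ, G = ct φ x u := ⟨_, rfl⟩
  rw [← hG] at hne hdiff
  have hopen : IsOpen {z : ℂ | t < ‖z - l‖} :=
    isOpen_lt continuous_const ((continuous_id.sub continuous_const).norm)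
  have hGat : ∀ z, t < ‖z - l‖ → DifferentiableAt ℂ G z := fun z hz =>
    (hdiff z hz).differentiableAt (hopen.mem_nhds hz)
  have hψ0 : ∀ z, z ∉ tsupport ψ → ψ z = 0 := fun z hz => image_eq_zero_of_notMem_tsupport hz
  -- smoothness
  have hsm : ContDiff ℝ ∞ (fun z => ψ z * (G z)⁻¹) := by
    rw [contDiff_iff_contDiffAt]
    intro z
    by_cases hz : z ∈ tsupport ψ
    · have h3 := hdist z hz
      have hzt : t < ‖z - l‖ := by linarith
      have h1 : ContDiffAt ℂ ∞ G z :=
        (hdiff.analyticAt (hopen.mem_nhds hzt)).contDiffAt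
      have h2 : ContDiffAt ℝ ∞ G z := h1.restrict_scalars ℝ
      exact hψ.contDiffAt.mul (h2.inv (hne z (by linarith)))
    · have h1 : (fun z => ψ z * (G z)⁻¹) =ᶠ[𝓝 z] fun _ => 0 := by
        filter_upwards [(isClosed_tsupport ψ).isOpen_compl.mem_nhds hz] with z' hz'
        rw [hψ0 z' hz', zero_mul]
      exact contDiffAt_const.congr_of_eventuallyEq h1
  have htsub : tsupport (fun z => ψ z * (G z)⁻¹) ⊆ tsupport ψ := tsupport_mul_subset_left
  -- the derivative
  have hdb : ∀ z, db (fun z => ψ z * (G z)⁻¹) z * G z = db ψ z := by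
    intro z
    by_cases hz : z ∈ tsupport ψ
    · have h3 := hdist z hz
      have hzt : t < ‖z - l‖ := by linarith
      have h1 := hprod (fun z => ψ z * (G z)⁻¹) G z
        ((hsm.differentiable (by simp)).differentiableAt)
        ((hGat z hzt).restrictScalars ℝ)
      rw [hhol G z (hGat z hzt), mul_zero, add_zero] at h1
      rw [← h1]
      have h2 : (fun w => ψ w * (G w)⁻¹ * G w) =ᶠ[𝓝 z] ψ := by
        have h4 : {z : ℂ | 2 * t < ‖z - l‖} ∈ 𝓝 z :=
          (isOpen_lt continuous_const ((continuous_id.sub continuous_const).norm)).mem_nhds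
            (show 2 * t < ‖z - l‖ by linarith)
        filter_upwards [h4] with z' hz'
        have h5 : G z' ≠ 0 := hne z' (le_of_lt hz')
        field_simp
      unfold db
      rw [h2.fderiv_eq]
    · rw [hts ψ z hz, hts _ z (fun h => hz (htsub h)), zero_mul]
  have h1 := hstar (fun z => ψ z * (G z)⁻¹) hsm
    (htsub.trans (hsupp.trans (sdiff_subset.trans (ball_subset_ball hρr)))) x
  refine h1.congr fun n => ?_
  have e1 : ∫ z, q n z * db (fun z => ψ z * (G z)⁻¹) z * ct φ x u z = ∫ z, q n z * db ψ z := by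
    refine integral_congr_ae (Eventually.of_forall fun z => ?_)
    simp only
    rw [← hG, mul_assoc, hdb]
  have e2 : ∫ s, conj (x s) * (q n (φ s) * (ψ (φ s) * (G (φ s))⁻¹) * u s) ∂μ = 0 := by
    rw [← integral_zero S ℂ (μ := μ)]
    refine integral_congr_ae ?_
    filter_upwards [hx0] with s hs
    by_cases h : φ s ∈ ball l t
    · have h2 : φ s ∉ tsupport ψ := by
        intro h3
        have h4 := hdist _ h3
        rw [mem_ball, dist_eq_norm] at h
        linarith
      rw [hψ0 _ h2]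
      ring
    · rw [hs h, map_zero, zero_mul]
  rw [e1, e2, mul_zero, add_zero]

end Pool.Agent.Y51.RO.TST
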